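import Pool.Agent.H93.PG.Targets

/-!
# Power-free shifts (`MP_32ebde_an`), row TA2 (board pgs): tails, two letters
-/

set_option autoImplicit false

open MeasureTheory Filter Topology Finset Pool.Agent.H93.PF Pool.Agent.H93.PG

namespace Pool.Agent.H79.PG

/-- the letters -/
def lt (b : Bool) : Fin 2 := cond b 1 0

theorem lt_inj {a b : Bool} (h : lt a = lt b) : a = b := by
  cases a <;> cases b <;> simp_all [lt]

/-- the tail -/
def rt2 (n : ℕ) : Fin 2 := lt (tm (7 + n))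

theorem xx1 (i : ℕ) (hi : 1 ≤ i) : xx 3 (fun _ => (0 : Fin 2)) rt2 i = lt (tm (4 + i)) := by
  unfold xx rt2
  by_cases h : i < 3
  · rw [if_pos h]
    have h5 : tm 5 = false := by decide
    have h6 : tm 6 = false := by decide
    rcases (show i = 1 ∨ i = 2 by omega) with rfl | rfl
    · rw [show 4 + 1 = 5 from rfl, h5]; rfl
    · rw [show 4 + 2 = 6 from rfl, h6]; rfl
  · rw [if_neg h]
    congr 2
    omega

theorem xxz (i : ℕ) (hi : i < 3) : xx 3 (fun _ => (0 : Fin 2)) rt2 i = 0 := by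
  unfold xx
  rw [if_pos hi]

theorem cc2 (hTMO : T_TMO) (i : ℕ) (hi : 0 < i) :
    ∃ j, j < 3 ∧ xx 3 (fun _ => (0 : Fin 2)) rt2 (i + j) ≠ 0 := by
  obtain ⟨j, h1, h2, h3⟩ := hTMO 1 (4 + i) one_pos
  by_contra hcon
  push Not at hcon
  have h4 : ∀ k, k < 3 → tm (4 + i + k) = false := by
    intro k hk
    have h5 := hcon k hk
    rw [xx1 (i + k) (by omega)] at h5
    have h6 : lt (tm (4 + (i + k))) = lt false := h5
    have h7 := lt_inj h6
    rw [← add_assoc] at h7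
    exact h7
  apply h3
  obtain ⟨k, rfl⟩ := Nat.exists_eq_add_of_le h1
  rw [h4 k (by omega), add_assoc, h4 (k + 1) (by omega)]

theorem cc1 (hTMO : T_TMO) (m : ℕ → ℕ) (hm : ∀ q, 0 < q → 3 * q + 1 ≤ m q) (q i : ℕ)
    (hq : 0 < q) : ∃ j, i ≤ j ∧ j + q < i + m q ∧
      xx 3 (fun _ => (0 : Fin 2)) rt2 (j + q) ≠ xx 3 (fun _ => (0 : Fin 2)) rt2 j := by
  have hmq := hm q hq
  rcases Nat.eq_zero_or_pos i with hi | hi
  · subst hi
    rcases (show q = 1 ∨ 2 ≤ q by omega) with h1 | h1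
    · subst h1
      refine ⟨2, by omega, by omega, ?_⟩
      rw [xxz 2 (by omega), xx1 (2 + 1) (by omega)]
      have h7 : tm 7 = true := by decide
      rw [show 4 + (2 + 1) = 7 from rfl, h7]
      decide
    · obtain ⟨j, h2, h3⟩ := cc2 hTMO q hq
      refine ⟨j, by omega, by omega, ?_⟩
      rw [xxz j h2, add_comm]
      exact h3
  · obtain ⟨j, h1, h2, h3⟩ := hTMO q (i + 4) hq
    refine ⟨j - 4, by omega, by omega, fun h4 => h3 ?_⟩
    rw [xx1 (j - 4 + q) (by omega), xx1 (j - 4) (by omega)] at h4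
    have h5 := lt_inj h4
    have e1 : 4 + (j - 4 + q) = j + q := by omega
    have e2 : 4 + (j - 4) = j := by omega
    rwa [e1, e2] at h5

theorem ccp (hTMC : T_TMC) (k : ℕ) (hk : 0 < k) :
    (Set.range fun (i : ℕ) (j : Fin k) => rt2 (i + (j : ℕ))).ncard ≤ 8 * (k + 1) := by
  have h1 := hTMC k hk
  have h2 : (Set.range fun (i : ℕ) (j : Fin k) => rt2 (i + (j : ℕ))) ⊆
      (fun f : Fin k → Bool => fun j => lt (f j)) ''
        (Set.range fun (i : ℕ) (j : Fin k) => tm (i + (j : ℕ))) := by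
    rintro f ⟨i, rfl⟩
    refine ⟨fun j => tm (7 + i + (j : ℕ)), ⟨7 + i, rfl⟩, ?_⟩
    funext j
    change lt (tm (7 + i + (j : ℕ))) = lt (tm (7 + (i + (j : ℕ))))
    rw [add_assoc]
  have h3 := Set.ncard_le_ncard h2 ((Set.toFinite _).image _)
  have h4 : ((fun f : Fin k → Bool => fun j => lt (f j)) ''
        (Set.range fun (i : ℕ) (j : Fin k) => tm (i + (j : ℕ)))).ncard ≤
      (Set.range fun (i : ℕ) (j : Fin k) => tm (i + (j : ℕ))).ncard :=
    Set.ncard_image_le (Set.toFinite _)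
  omega

/-- the tail -/
def tl (hTMO : T_TMO) (hTMC : T_TMC) (m : ℕ → ℕ) (hm : ∀ q, 0 < q → 3 * q + 1 ≤ m q) :
    Tail 2 m where
  Y := 3
  y := fun _ => 0
  rt := rt2
  Y0 := by norm_num
  m2 := fun q hq => by have := hm q hq; omega
  c1 := cc1 hTMO m hm
  c2 := cc2 hTMO
  c3 := fun q hq => Or.inl (by have := hm q hq; omega)
  cp := ccp hTMC

theorem exi (B : ℕ) (hB : 1 < B) : ∃ i, B ≤ 4 ^ i ∧ 4 ^ i < 4 * B := by
  classical
  have hex : ∃ i, B ≤ 4 ^ i := ⟨B, (Nat.lt_pow_self (by norm_num)).le⟩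
  refine ⟨Nat.find hex, Nat.find_spec hex, ?_⟩
  have h0 : Nat.find hex ≠ 0 := by
    intro h
    have := Nat.find_spec hex
    rw [h, pow_zero] at this
    omega
  obtain ⟨n, hn⟩ := Nat.exists_eq_succ_of_ne_zero h0
  have h1 : ¬ B ≤ 4 ^ n := Nat.find_min hex (by omega)
  rw [hn, pow_succ]
  omega

theorem frames (hTMB : T_TMB) (hTMO : T_TMO) (hTMC : T_TMC) (m : ℕ → ℕ)
    (hm : ∀ q, 0 < q → 3 * q + 1 ≤ m q) (K : ℕ) (hK : 2 ≤ K) :
    ∃ N0 k1 k2, Frm (tl hTMO hTMC m hm) 0 K N0 k1 k2 := by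
  obtain ⟨-, -, -, hA, hB⟩ := hTMB
  obtain ⟨i, hi1, hi2⟩ := exi (2 * K + 26) (by omega)
  have hp : 4 ^ (i + 1) = 4 * 4 ^ i := by rw [pow_succ]; ring
  have e4 : ∀ a : ℕ, (4 : ℕ) ^ a = 2 ^ (2 * a) := fun a => by rw [pow_mul]; norm_num
  have hev : ∀ a : ℕ, (2 * a % 2 == 1) = false := fun a => by
    rw [Nat.mul_mod_right]
    rfl
  -- the reversals
  have hrev : ∀ a x : ℕ, x < 4 ^ a → tm (4 ^ a - 1 - x) = tm x := by
    intro a x hx
    rw [e4] at hx ⊢
    rw [hB (2 * a) x hx, hev, Bool.xor_false]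
  have h3 : tm 3 = false := by decide
  have hthree : ∀ x : ℕ, x < 4 ^ i → tm (3 * 4 ^ i + x) = tm x := by
    intro x hx
    have h := hA (2 * i) 3 x (by rw [← e4]; exact hx)
    rw [← e4, h3, Bool.false_xor, mul_comm] at h
    exact h
  refine ⟨4 ^ (i + 1) - 14, 3 * 4 ^ i + 10, 4 ^ i - 26, ?_⟩
  have hrt : ∀ n, (tl hTMO hTMC m hm).rt n = lt (tm (7 + n)) := fun n => rfl
  have hY : (tl hTMO hTMC m hm).Y = 3 := rfl
  have t5 : tm 5 = false := by decide
  have t6 : tm 6 = false := by decide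
  have t8 : tm 8 = true := by decide
  have t15 : tm 15 = false := by decide
  have t16 : tm 16 = true := by decide
  have t17 : tm 17 = false := by decide
  have t18 : tm 18 = false := by decide
  have t19 : tm 19 = true := by decide
  have t20 : tm 20 = false := by decide
  have z1 : lt false = 0 := rfl
  have z2 : lt true ≠ 0 := by decide
  constructor
  · omega
  · omega
  · omega
  · omega
  · rw [hY]
    omega
  · intro x hx
    rw [hrt, hrt]
    congr 1
    have e : 7 + (4 ^ (i + 1) - 14 - 1 - x) = 4 ^ (i + 1) - 1 - (7 + x) := by omega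
    rw [e]
    exact hrev (i + 1) (7 + x) (by omega)
  · intro j hj
    rw [hY] at hj
    rw [hrt, hrt, hrt]
    have e1 : 7 + (4 ^ (i + 1) - 14 + j) = 4 ^ (i + 1) - 1 - (6 - j) := by omega
    have e2 : 7 + (3 * 4 ^ i + 10 + j) = 3 * 4 ^ i + (17 + j) := by omega
    have e3 : 7 + (4 ^ i - 26 + j) = 4 ^ i - 1 - (18 - j) := by omega
    rw [e1, e2, e3, hrev (i + 1) (6 - j) (by omega), hthree (17 + j) (by omega),
      hrev i (18 - j) (by omega)]
    rcases (show j = 0 ∨ j = 1 by omega) with rfl | rfl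
    · rw [show 6 - 0 = 6 from rfl, show 17 + 0 = 17 from rfl, show 18 - 0 = 18 from rfl, t6, t17,
        t18]
      exact ⟨z1, z1, z1⟩
    · rw [show 6 - 1 = 5 from rfl, show 17 + 1 = 18 from rfl, show 18 - 1 = 17 from rfl, t5, t17,
        t18]
      exact ⟨z1, z1, z1⟩
  · rw [hrt]
    have e1 : 7 + (3 * 4 ^ i + 10 - 1) = 3 * 4 ^ i + 16 := by omega
    rw [e1, hthree 16 (by omega), t16]
    exact z2
  · rw [hrt]
    have e1 : 7 + (4 ^ i - 26 - 1) = 4 ^ i - 1 - 19 := by omega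
    rw [e1, hrev i 19 (by omega), t19]
    exact z2
  · refine ⟨1, by omega, ?_⟩
    rw [hrt, hrt]
    have e1 : 7 + (3 * 4 ^ i + 10 - 1 - 1) = 3 * 4 ^ i + 15 := by omega
    rw [e1, hthree 15 (by omega), t15, show 7 + 1 = 8 from rfl, t8]
    exact z2.symm
  · refine ⟨1, by omega, ?_⟩
    rw [hrt, hrt]
    have e1 : 7 + (4 ^ i - 26 - 1 - 1) = 4 ^ i - 1 - 20 := by omega
    rw [e1, hrev i 20 (by omega), t20, show 7 + 1 = 8 from rfl, t8]
    exact z2.symm

theorem pf_TA2 (hTMB : T_TMB) (hTMO : T_TMO) (hTMC : T_TMC) : T_TA2 := by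
  intro m hm
  have t7 : tm 7 = true := by decide
  refine ⟨{ t := tl hTMO hTMC m hm
            e := 0
            ye := fun _ => rfl
            e0 := ?_
            my := fun q hq => ?_
            frm := fun K hK => frames hTMB hTMO hTMC m hm K hK }, rfl⟩
  · change lt (tm 7) ≠ 0
    rw [t7]
    decide
  · have := hm q hq
    change 2 * q + 3 ≤ m q + 1
    omega

end Pool.Agent.H79.PG
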